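import Pool.Agent.Helper10.SysNorm

set_option autoImplicit false

namespace Pool.Agent.Results.MP_c7d465_al.NoUniformBound

open Pool.Agent.Helper10.SysNorm

/-- **Negative answer to Q1.** For every `n ≥ 1` there is a finite soluble group `G` such that for
`m ≥ 1` the hypercentre of `G` is the intersection of the system normalizers of some `m` Sylow
systems of `G` if and only if `m > n`. In particular it is not the intersection of any `n` system
normalizers. -/
theorem result :
    ∀ n : ℕ, 0 < n → ∃ (G : Type) (_ : Group G) (_ : Finite G), Group.IsSolvable G ∧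
      ∀ m : ℕ, 0 < m →
        ((∃ S : Fin m → SylowSystem G, hypercentre G = ⨅ i : Fin m, systemNormalizer (S i)) ↔
          n < m) := by
  intro n hn
  refine ⟨HG n, inferInstance, inferInstance, HG.isSolvable, fun m hm => ⟨?_, fun hmn => ?_⟩⟩
  · rintro ⟨S, hS⟩
    rw [HG.hypercentre_eq_bot hn] at hS
    by_contra hmn
    exact HG.not_of_le hn hm (not_lt.1 hmn) S hS.symm
  · exact ⟨fun i => HG.mkSys (HG.tr (HG.vec n m i) • HG.sylK), by
      rw [HG.hypercentre_eq_bot hn, HG.iInf_eq_bot hn hmn]⟩

end Pool.Agent.Results.MP_c7d465_al.NoUniformBound
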